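import Pool.Agent.W360.MQ.Stm

/-! # MQ-OM: the passage to matrices and open sets -/

set_option autoImplicit false

namespace Pool.Agent.W523.MQ.OM

open MeasureTheory Set Filter Topology
open Pool.Agent.W488.IW (dz dzb)
open Pool.Agent.W360.MQ

/-- the identification of `ℂ` with the plane -/
noncomputable def L : ℂ ≃L[ℝ] (Fin 2 → ℝ) := Complex.basisOneI.equivFun.toContinuousLinearEquiv

theorem L_symm (v : Fin 2 → ℝ) : L.symm v = v 0 + v 1 * Complex.I := by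
  change Complex.basisOneI.equivFun.symm v = _
  simp [Complex.basisOneI]

theorem L_one : L 1 = Pi.single 0 1 := by
  rw [← L.symm.injective.eq_iff, L.symm_apply_apply, L_symm]
  simp

theorem L_I : L Complex.I = Pi.single 1 1 := by
  rw [← L.symm.injective.eq_iff, L.symm_apply_apply, L_symm]
  simp

theorem cab_add (A B : Matrix (Fin 2) (Fin 2) ℝ) : cab (A + B) = cab A + cab B := by
  unfold cab
  simp only [Matrix.add_apply, Prod.mk_add_mk]
  push_cast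
  ext <;> simp <;> ring

/-- the map `L.symm ∘ ϑ ∘ L` -/
noncomputable def fo (ϑ : (Fin 2 → ℝ) → (Fin 2 → ℝ)) : ℂ → ℂ := L.symm ∘ (ϑ ∘ L)

theorem fderiv_fo (ϑ : (Fin 2 → ℝ) → (Fin 2 → ℝ)) (z h : ℂ) :
    fderiv ℝ (fo ϑ) z h = L.symm (fderiv ℝ ϑ (L z) (L h)) := by
  unfold fo
  rw [ContinuousLinearEquiv.comp_fderiv, ContinuousLinearEquiv.comp_right_fderiv]
  rfl

theorem cab_fderiv (ϑ : (Fin 2 → ℝ) → (Fin 2 → ℝ)) (z : ℂ) :
    (dz (fo ϑ) z, dzb (fo ϑ) z) = cab (LinearMap.toMatrix'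
          ((fderiv ℝ ϑ (L z) : (Fin 2 → ℝ) →L[ℝ] (Fin 2 → ℝ)) :
            (Fin 2 → ℝ) →ₗ[ℝ] (Fin 2 → ℝ))) := by
  unfold dz dzb cab
  simp only [fderiv_fo, L_one, L_I, L_symm, LinearMap.toMatrix'_apply]
  have hI : Complex.I * Complex.I = -1 := Complex.I_mul_I
  simp only [ContinuousLinearMap.coe_coe]
  refine Prod.ext ?_ ?_
  · push_cast
    linear_combination (-1 / 2 * (fderiv ℝ ϑ (L z) (Pi.single 1 1) 1 : ℂ)) * hI
  · push_cast
    linear_combination (1 / 2 * (fderiv ℝ ϑ (L z) (Pi.single 1 1) 1 : ℂ)) * hI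

/-- the affine map `D ↦ cab (F₀ + matrix of D)` -/
noncomputable def T (F₀ : Matrix (Fin 2) (Fin 2) ℝ) (D : (Fin 2 → ℝ) →L[ℝ] (Fin 2 → ℝ)) : ℂ × ℂ :=
  cab (F₀ + LinearMap.toMatrix' (D : (Fin 2 → ℝ) →ₗ[ℝ] (Fin 2 → ℝ)))

theorem T_cont (F₀ : Matrix (Fin 2) (Fin 2) ℝ) : Continuous (T F₀) := by
  unfold T cab
  simp only [Matrix.add_apply, LinearMap.toMatrix'_apply, ContinuousLinearMap.coe_coe]
  fun_prop

theorem main (h1 : S_LIP) (h2 : S_ZERO) : S_OM := by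
  intro w hw hQ F₀ Ω hΩ hΩb ϑ hϑ h0
  obtain ⟨K, hK⟩ := hϑ
  -- the map on the complex plane
  have hfl : ∃ K', LipschitzWith K' (fo ϑ) :=
    ⟨_, (L.symm.lipschitz).comp (hK.comp L.lipschitz)⟩
  have hfc : HasCompactSupport (fo ϑ) := by
    have hcK : IsCompact (L.symm '' (closure Ω)) :=
      (hΩb.isCompact_closure).image L.symm.continuous
    refine HasCompactSupport.intro hcK ?_
    intro z hz
    have : L z ∉ Ω := by
      intro hmem
      exact hz ⟨L z, subset_closure hmem, L.symm_apply_apply z⟩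
    simp [fo, h0 _ this]
  have hpos := h1 w hw hQ (cab F₀) (fo ϑ) hfl hfc
  -- the integrand
  set G : (Fin 2 → ℝ) → ℝ := fun x => w (T F₀ (fderiv ℝ ϑ x)) - w (cab F₀) with hG
  have hGL : ∀ z : ℂ, w (cab F₀ + (dz (fo ϑ) z, dzb (fo ϑ) z)) - w (cab F₀) = G (L z) := by
    intro z
    simp only [hG, T]
    rw [cab_fderiv, cab_add]
  have hint : ∫ z : ℂ, G (L z) = ∫ x : Fin 2 → ℝ, G x :=
    Complex.volume_preserving_equiv_pi.integral_comp' G
  simp only [hGL] at hpos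
  rw [hint] at hpos
  have hzero : ∀ᵐ x : Fin 2 → ℝ, x ∉ Ω → G x = 0 := by
    filter_upwards [h2 ϑ ⟨K, hK⟩] with x hx hxΩ
    have := hx (h0 x hxΩ)
    simp [hG, T, this]
  rw [← setIntegral_eq_integral_of_ae_compl_eq_zero hzero] at hpos
  -- integrability
  have hbd : ∃ C, ∀ x, ‖w (T F₀ (fderiv ℝ ϑ x))‖ ≤ C := by
    have hc : IsCompact (Metric.closedBall (0 : (Fin 2 → ℝ) →L[ℝ] (Fin 2 → ℝ)) K) :=
      isCompact_closedBall _ _
    obtain ⟨C, hC⟩ := hc.exists_bound_of_continuousOn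
      ((hw.comp (T_cont F₀)).continuousOn (s := Metric.closedBall 0 (K : ℝ)))
    refine ⟨C, fun x => hC _ ?_⟩
    rw [mem_closedBall_zero_iff]
    exact norm_fderiv_le_of_lipschitz ℝ hK
  obtain ⟨C, hC⟩ := hbd
  have hmeas : Measurable (fun x => w (T F₀ (fderiv ℝ ϑ x))) :=
    (hw.comp (T_cont F₀)).measurable.comp (measurable_fderiv ℝ ϑ)
  have hfin : volume Ω < ⊤ := hΩb.measure_lt_top
  have hI1 : IntegrableOn (fun x => w (T F₀ (fderiv ℝ ϑ x))) Ω :=
    Measure.integrableOn_of_bounded hfin.ne hmeas.aestronglyMeasurable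
      (Filter.Eventually.of_forall hC)
  have hI2 : IntegrableOn (fun _ : Fin 2 → ℝ => w (cab F₀)) Ω :=
    integrableOn_const hfin.ne
  rw [hG, integral_sub hI1 hI2, setIntegral_const] at hpos
  simp only [smul_eq_mul, Measure.real] at hpos
  have : w (cab F₀) * (volume Ω).toReal ≤ ∫ x in Ω, w (T F₀ (fderiv ℝ ϑ x)) := by
    linarith [mul_comm (w (cab F₀)) (volume Ω).toReal]
  exact this

end Pool.Agent.W523.MQ.OM
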