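import Pool.Agent.W360.MQ.Stm

/-! # MQ-ZERO: the derivative of a Lipschitz map vanishes a.e. on the zero set -/

set_option autoImplicit false

namespace Pool.Agent.W523.MQ.ZERO

open MeasureTheory Set Filter Topology

theorem main : Pool.Agent.W360.MQ.S_ZERO := by
  rintro ϑ ⟨K, hK⟩
  set Z : Set (Fin 2 → ℝ) := {x | ϑ x = 0} ∩ {x | DifferentiableAt ℝ ϑ x} with hZ
  have hZm : MeasurableSet Z :=
    (isClosed_eq hK.continuous continuous_const).measurableSet.inter
      (measurableSet_of_differentiableAt ℝ ϑ)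
  have h1 : ApproximatesLinearOn ϑ (0 : (Fin 2 → ℝ) →L[ℝ] (Fin 2 → ℝ)) Z 0 := by
    intro x hx y hy
    have hx1 : ϑ x = 0 := hx.1
    have hy1 : ϑ y = 0 := hy.1
    simp [hx1, hy1]
  have h2 := h1.norm_fderiv_sub_le volume hZm (fun x => fderiv ℝ ϑ x)
    (fun x hx => (show DifferentiableAt ℝ ϑ x from hx.2).hasFDerivAt.hasFDerivWithinAt)
  rw [ae_restrict_iff' hZm] at h2
  filter_upwards [h2, hK.ae_differentiableAt] with x hx hd h0
  have := hx ⟨h0, hd⟩
  simpa using this

end Pool.Agent.W523.MQ.ZERO
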